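import Pool.Agent.W_b4801b_t10k.Res
import Pool.Agent.W_MP_b4801b_h67.Main

/-!
# The reduction of a polarized representation by a maximal isotropic stable subspace
-/

set_option autoImplicit false

noncomputable section

open Module

universe u v

namespace Pool.Agent.B4801bH65

open Pool.Agent.B4801b Pool.Agent.T10 Pool.Agent.T10K

section Generic

variable {K : Type*} [Field K] {V : Type*} [AddCommGroup V] [Module K V]

/-- The subquotient `B / A` of the representation `ρ` is semisimple: every stable subspace between `A` and `B`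
has a stable complement modulo `A`. -/
def SemisimpleBetween {G : Type*} [Group G] (ρ : Representation K G V) (A B : Submodule K V) : Prop :=
  ∀ U : Submodule K V, IsStable ρ U → A ≤ U → U ≤ B →
    ∃ U' : Submodule K V, IsStable ρ U' ∧ U ⊓ U' = A ∧ U ⊔ U' = B

theorem finrank_perp [FiniteDimensional K V] (ψ : LinearMap.BilinForm K V) (hψ : Nondeg ψ)
    (W : Submodule K V) : finrank K W + finrank K (perp ψ W) = finrank K V := by
  -- the orthogonal is the kernel of `V → W^*`
  let T : V →ₗ[K] Module.Dual K W := (ψ.domRestrict W).flip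
  have hker : LinearMap.ker T = perp ψ W := by
    ext y
    rw [LinearMap.mem_ker]
    constructor
    · intro hy x hx
      exact LinearMap.congr_fun hy ⟨x, hx⟩
    · intro hy
      ext ⟨x, hx⟩
      exact hy x hx
  have h1 := LinearMap.finrank_range_add_finrank_ker T
  have hflip : T.dualMap ∘ₗ Module.Dual.eval K W = ψ.domRestrict W := by
    ext x y
    rfl
  have hinj : Function.Injective (ψ.domRestrict W) := by
    rw [← LinearMap.ker_eq_bot, LinearMap.ker_eq_bot']
    intro x hx
    apply Subtype.ext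
    exact hψ _ fun y => LinearMap.congr_fun hx y
  have hTs : Function.Surjective T := by
    have hd : Function.Injective T.dualMap := by
      have he : Function.Injective (T.dualMap ∘ₗ Module.Dual.eval K W) := by rw [hflip]; exact hinj
      intro a b hab
      obtain ⟨a', rfl⟩ := (Module.bijective_dual_eval K W).2 a
      obtain ⟨b', rfl⟩ := (Module.bijective_dual_eval K W).2 b
      rw [he hab]
    exact LinearMap.dualMap_injective_iff.1 hd
  rw [LinearMap.range_eq_top.2 hTs, finrank_top, Subspace.dual_finrank_eq, hker] at h1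
  exact h1

end Generic

variable {k : Type u} [Field k] {w ℓ : ℕ} [Fact ℓ.Prime]

theorem perp_stable (R : PolRep.{u, v} k w ℓ) (W : Submodule ℚ_[ℓ] R.V) (hW : IsStable R.ρ W) :
    IsStable R.ρ (perp R.ψ W) := by
  intro σ y hy z hz
  have h1 : R.ρ σ (R.ρ σ⁻¹ z) = z := by
    rw [← Module.End.mul_apply, ← map_mul, mul_inv_cancel, map_one, Module.End.one_apply]
  have h2 : R.ψ (R.ρ σ⁻¹ z) y = 0 := hy _ (hW _ _ hz)
  have h3 := R.equivariant σ (R.ρ σ⁻¹ z) y
  rw [h1, h2] at h3
  rcases mul_eq_zero.mp h3 with h | h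
  · have : ∀ a b, R.ψ a b = 0 := fun a b => by
      rw [← R.equivariant σ a b, h, zero_mul]
    exact this _ _
  · exact h

/-- If orthogonality is a symmetric relation then there is an isotropic stable subspace `W` such that the
subquotient `W^⊥ / W` is semisimple. -/
theorem exists_reduction (R : PolRep.{u, v} k w ℓ) (hs : ∀ a b, R.ψ a b = 0 → R.ψ b a = 0) :
    ∃ W : Submodule ℚ_[ℓ] R.V, IsStable R.ρ W ∧ Isotropic R.ψ W ∧
      SemisimpleBetween R.ρ W (perp R.ψ W) := by
  obtain ⟨W, ⟨hW, hI⟩, hmax⟩ := (wellFounded_gt (α := Submodule ℚ_[ℓ] R.V)).has_min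
    {W | IsStable R.ρ W ∧ Isotropic R.ψ W} ⟨⊥, fun σ x hx => by
      rw [(Submodule.mem_bot _).1 hx, map_zero]
      exact Submodule.zero_mem _, fun x hx y _ => by
      rw [(Submodule.mem_bot _).1 hx, map_zero, LinearMap.zero_apply]⟩
  refine ⟨W, hW, hI, ?_⟩
  intro U hU hWU hUW
  have hUs := perp_stable R U hU
  have hWU' : W ≤ perp R.ψ U := fun y hy z hz => hs _ _ (hUW hz y hy)
  have hUW' : perp R.ψ U ≤ perp R.ψ W := fun y hy z hz => hy z (hWU hz)
  have hinf : U ⊓ perp R.ψ U = W := by
    by_contra hne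
    refine hmax (U ⊓ perp R.ψ U) ⟨fun σ y hy => ⟨hU σ y hy.1, hUs σ y hy.2⟩,
      fun a ha b hb => hb.2 a ha.1⟩ ?_
    exact lt_of_le_of_ne (le_inf hWU hWU') fun h => hne h.symm
  refine ⟨perp R.ψ U, hUs, hinf, ?_⟩
  refine Submodule.eq_of_le_of_finrank_le (sup_le hUW hUW') ?_
  have h1 := Submodule.finrank_sup_add_finrank_inf_eq U (perp R.ψ U)
  have h2 := finrank_perp R.ψ R.nondeg U
  have h3 := finrank_perp R.ψ R.nondeg W
  rw [hinf] at h1
  omega

end Pool.Agent.B4801bH65
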