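import Pool.Agent.W_b4801b_t10k.One
import Pool.Agent.W_b4801b_h65.Red

/-!
# The Newton test at one place, balanced at that place only

The proof of `Pool.Agent.T10K.frob_eigenvalue` uses the determinant of `W(j)` only at the Frobenius element
of the place `x`.
-/

set_option autoImplicit false

noncomputable section

open Polynomial Module

universe u v

namespace Pool.Agent.B4801bH65

open Pool.Agent.B4801b Pool.Agent.T10 Pool.Agent.T10K

variable {k : Type u} [Field k]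

/-- The eigenvalues of `F_x` on `W(j)`, `W` isotropic stable such that `det (F_x | W(j)) ^ (2 N) = 1`, are
roots of unity of order dividing `2 M`, where `M` depends only on the system. -/
theorem frob_eigenvalue' {j : ℕ} (S : CompSys.{u, v} k (2 * j)) :
    ∃ M : ℕ, 0 < M ∧ ∀ (ℓ : ℕ) [Fact ℓ.Prime] (N : ℕ), 0 < N →
      ∀ x ∈ S.Pl, ℓ ≠ x.p → NewtonTest (S.P x) ((x.q : ℚ) ^ (2 * j)) x.p →
      ∀ (W : Submodule ℚ_[ℓ] (S.rep ℓ).V) (hW : ∀ σ, ∀ y ∈ W, (S.rep ℓ).ρ σ y ∈ W),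
        (∀ y ∈ W, ∀ z ∈ W, (S.rep ℓ).ψ y z = 0) →
        (LinearMap.det (((S.rep ℓ).ρ x.frob).restrict (hW x.frob)) *
          cyc k ℓ x.frob ^ (j * Module.finrank ℚ_[ℓ] W)) ^ (2 * N) = 1 →
        ∀ β : AlgebraicClosure ℚ_[ℓ],
          aeval β (((S.rep ℓ).ρ x.frob).restrict (hW x.frob)).charpoly = 0 →
          (algebraMap ℚ_[ℓ] (AlgebraicClosure ℚ_[ℓ]) (cyc k ℓ x.frob) ^ j * β) ^ (2 * M) = 1 := by
  obtain ⟨d, hd⟩ := Root_degree S
  obtain ⟨M, hM, h⟩ := root_of_test d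
  refine ⟨M, hM, ?_⟩
  intro ℓ _ N hN x hx hℓ hT W hW hiso h1 β hβ
  have hχ := x.cyc_frob ℓ hℓ
  have hq : (x.q : ℚ_[ℓ]) ≠ 0 := right_ne_zero_of_mul_eq_one hχ
  have hq0 : 0 < x.q := by
    rcases Nat.eq_zero_or_pos x.q with h0 | h0
    · rw [h0] at hq
      exact absurd Nat.cast_zero hq
    · exact h0
  have hcp := S.charpoly_frob x hx ℓ hℓ
  unfold PolRep.HasCharpoly at hcp
  -- the similitude
  have hA : ∀ y z, (S.rep ℓ).ψ ((S.rep ℓ).ρ x.frob y) ((S.rep ℓ).ρ x.frob z) =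
      ((x.q : ℚ_[ℓ]) ^ (2 * j)) * (S.rep ℓ).ψ y z := by
    intro y z
    have h1 := (S.rep ℓ).equivariant x.frob y z
    rw [← h1, ← mul_assoc, ← mul_pow, mul_comm (x.q : ℚ_[ℓ]), hχ, one_pow, one_mul]
  have hrel := Root_relation (AlgebraicClosure ℚ_[ℓ]) (S.rep ℓ).ψ (S.rep ℓ).nondeg
    ((S.rep ℓ).ρ x.frob) ((x.q : ℚ_[ℓ]) ^ (2 * j)) (pow_ne_zero _ hq) hA W (hW x.frob) hiso
  have hc : algebraMap ℚ (AlgebraicClosure ℚ_[ℓ]) ((x.q : ℚ) ^ (2 * j)) =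
      algebraMap ℚ_[ℓ] (AlgebraicClosure ℚ_[ℓ]) ((x.q : ℚ_[ℓ]) ^ (2 * j)) := by
    rw [map_pow, map_pow, map_natCast, map_natCast]
  have har : ((S.rep ℓ).ρ x.frob).charpoly.aroots (AlgebraicClosure ℚ_[ℓ]) =
      (S.P x).aroots (AlgebraicClosure ℚ_[ℓ]) := by
    rw [hcp, Polynomial.aroots_def, Polynomial.aroots_def, Polynomial.map_map]
    congr 2
  rw [har, ← hc] at hrel
  have hP0 : S.P x ≠ 0 := by
    intro h0
    rw [h0, Polynomial.map_zero] at hcp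
    exact (LinearMap.charpoly_monic _).ne_zero hcp
  have hprod := Root_prod (AlgebraicClosure ℚ_[ℓ]) (((S.rep ℓ).ρ x.frob).restrict (hW x.frob))
    (algebraMap ℚ (AlgebraicClosure ℚ_[ℓ]) ((x.q : ℚ) ^ (2 * j))) N
  have hone : (algebraMap ℚ_[ℓ] (AlgebraicClosure ℚ_[ℓ])
      (LinearMap.det (((S.rep ℓ).ρ x.frob).restrict (hW x.frob))) ^ 2 /
      (algebraMap ℚ (AlgebraicClosure ℚ_[ℓ]) ((x.q : ℚ) ^ (2 * j))) ^ Module.finrank ℚ_[ℓ] W) ^ N
        = 1 := by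
    have h2 : ((LinearMap.det (((S.rep ℓ).ρ x.frob).restrict (hW x.frob))) ^ 2 /
        ((x.q : ℚ_[ℓ]) ^ (2 * j)) ^ Module.finrank ℚ_[ℓ] W) ^ N = 1 := by
      have h3 : cyc k ℓ x.frob = (x.q : ℚ_[ℓ])⁻¹ := eq_inv_of_mul_eq_one_left hχ
      have h4 : (LinearMap.det (((S.rep ℓ).ρ x.frob).restrict (hW x.frob))) ^ 2 /
          ((x.q : ℚ_[ℓ]) ^ (2 * j)) ^ Module.finrank ℚ_[ℓ] W =
          (LinearMap.det (((S.rep ℓ).ρ x.frob).restrict (hW x.frob)) *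
            cyc k ℓ x.frob ^ (j * Module.finrank ℚ_[ℓ] W)) ^ 2 := by
        rw [h3, mul_pow, div_eq_mul_inv, inv_pow, inv_pow, ← pow_mul, ← pow_mul]
        congr 3
        ring
      rw [h4, ← pow_mul, h1]
    have h5 := congrArg (algebraMap ℚ_[ℓ] (AlgebraicClosure ℚ_[ℓ])) h2
    rw [map_pow, map_div₀, map_pow, map_pow, map_one] at h5
    rw [hc]
    exact h5
  rw [hone] at hprod
  have hβ' : β ∈ (((S.rep ℓ).ρ x.frob).restrict (hW x.frob)).charpoly.aroots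
      (AlgebraicClosure ℚ_[ℓ]) := by
    rw [Polynomial.mem_aroots]
    exact ⟨(LinearMap.charpoly_monic _).ne_zero, hβ⟩
  have hfin := h (AlgebraicClosure ℚ_[ℓ]) (S.P x) ((x.q : ℚ) ^ (2 * j)) x.p N _ hP0 (hd x hx)
    (pow_pos (Nat.cast_pos.2 hq0) _) hN (fun z hz => by
      rw [S.pure x hx z hz]
      push_cast
      rfl) (fun ℓ' _ hℓ' => by
      rw [Rat.cast_pow, Rat.cast_natCast, norm_pow, norm_q x ℓ' hℓ', one_pow])
    (fun ℓ' _ α hℓ' hα => norm_root S x hx ℓ' hℓ' α hα) hT hrel hprod β hβ'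
  rw [pow_mul, ← hfin]
  congr 1
  rw [hc, mul_pow, ← map_pow, ← map_pow, div_eq_mul_inv, ← map_inv₀, mul_comm]
  congr 2
  have h3 : cyc k ℓ x.frob = (x.q : ℚ_[ℓ])⁻¹ := eq_inv_of_mul_eq_one_left hχ
  rw [h3, inv_pow, inv_pow, ← pow_mul, mul_comm j 2]

/-- Let `R` be a multiset of elements of an algebraically closed extension `M` of `ℚ` such that `R + c / R` is
contained in the multiset of roots of `P`. Then there is such a multiset of complex numbers, of the same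
cardinality, whose elements satisfy the same equations `a ^ (2 m) = c ^ m`. -/
theorem pairs_transfer (P : ℚ[X]) (c : ℚ) (M : Type*) [Field M] [Algebra ℚ M] [IsAlgClosed M]
    (R : Multiset M) (hR : R + R.map (fun a => algebraMap ℚ M c / a) ≤ P.aroots M) (m : ℕ)
    (hm : ∀ a ∈ R, a ^ (2 * m) = algebraMap ℚ M c ^ m) :
    ∃ R' : Multiset ℂ, Multiset.card R' = Multiset.card R ∧
      R' + R'.map (fun a => (c : ℂ) / a) ≤ P.aroots ℂ ∧ ∀ a ∈ R', a ^ (2 * m) = (c : ℂ) ^ m := by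
  classical
  let L := AlgebraicClosure ℚ
  have : Algebra.IsAlgebraic ℚ L := AlgebraicClosure.isAlgebraic ℚ
  let i : L →ₐ[ℚ] M := IsAlgClosed.lift
  let j : L →ₐ[ℚ] ℂ := IsAlgClosed.lift
  have hi : Function.Injective (i : L → M) := i.toRingHom.injective
  have hR1 : R ≤ (P.aroots L).map i := by
    rw [← aroots_map_of_closed i]
    exact le_trans (Multiset.le_add_right _ _) hR
  have hmem : ∀ a ∈ R, i (Function.invFun i a) = a := by
    intro a ha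
    obtain ⟨b, _, hb⟩ := Multiset.mem_map.mp (Multiset.mem_of_le hR1 ha)
    exact Function.invFun_eq ⟨b, hb⟩
  obtain ⟨Q, hQ⟩ : ∃ Q : Multiset L, Q.map i = R := by
    refine ⟨R.map (Function.invFun i), ?_⟩
    rw [Multiset.map_map]
    conv_rhs => rw [← Multiset.map_id R]
    exact Multiset.map_congr rfl fun a ha => hmem a ha
  have hQ1 : Q + Q.map (fun a => algebraMap ℚ L c / a) ≤ P.aroots L := by
    rw [← Multiset.map_le_map_iff hi, ← aroots_map_of_closed i]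
    refine le_trans (le_of_eq ?_) hR
    rw [← hQ, Multiset.map_add, Multiset.map_map, Multiset.map_map]
    congr 1
    refine Multiset.map_congr rfl fun a _ => ?_
    simp only [Function.comp_apply, map_div₀, i.commutes]
  have hQ2 : ∀ a ∈ Q, a ^ (2 * m) = algebraMap ℚ L c ^ m := by
    intro a ha
    apply hi
    rw [map_pow, map_pow, i.commutes]
    exact hm _ (by rw [← hQ]; exact Multiset.mem_map_of_mem _ ha)
  refine ⟨Q.map j, ?_, ?_, ?_⟩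
  · rw [Multiset.card_map, ← hQ, Multiset.card_map]
  · rw [aroots_map_of_closed j]
    refine le_trans (le_of_eq ?_) (Multiset.map_le_map hQ1)
    rw [Multiset.map_add, Multiset.map_map, Multiset.map_map]
    congr 1
    refine Multiset.map_congr rfl fun a _ => ?_
    simp only [Function.comp_apply, map_div₀, j.commutes]
    rfl
  · intro b hb
    obtain ⟨a, ha, rfl⟩ := Multiset.mem_map.mp hb
    have h5 := congrArg j (hQ2 a ha)
    rw [map_pow, map_pow, j.commutes] at h5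
    exact h5

/-- `P` has `n` disjoint pairs of roots of Tate type, of order dividing `m`: there is a multiset `R` of `n`
complex numbers such that `R + c / R` is contained in the multiset of the roots of `P` and
`(a ^ 2 / c) ^ m = 1` for all `a` in `R`. -/
def TatePairs (P : ℚ[X]) (c : ℚ) (m n : ℕ) : Prop :=
  ∃ R : Multiset ℂ, Multiset.card R = n ∧ R + R.map (fun a => (c : ℂ) / a) ≤ P.aroots ℂ ∧
    ∀ a ∈ R, a ^ (2 * m) = (c : ℂ) ^ m

section Rep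

variable {j ℓ : ℕ} [Fact ℓ.Prime]

/-- The determinant of `g` on `W(j)` is a root of unity. -/
def DetRoot (R : PolRep.{u, v} k (2 * j) ℓ) (W : Submodule ℚ_[ℓ] R.V) (hW : IsStable R.ρ W)
    (g : Gal k) : Prop :=
  ∃ N : ℕ, 0 < N ∧ (detOn R.ρ W hW g * cycPow k ℓ j g ^ finrank ℚ_[ℓ] W) ^ N = 1

/-- `V` is balanced at `g`: the determinant of `g` on `W(j)` is a root of unity for every isotropic stable
subspace `W` of `V`. -/
def BalAt (R : PolRep.{u, v} k (2 * j) ℓ) (g : Gal k) : Prop :=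
  ∀ (W : Submodule ℚ_[ℓ] R.V) (hW : IsStable R.ρ W), Isotropic R.ψ W → DetRoot R W hW g

/-- The pairing is symmetric. -/
def SymmRep (R : PolRep.{u, v} k (2 * j) ℓ) : Prop := ∀ a b, R.ψ a b = R.ψ b a

end Rep

theorem balAt_of_balRep {j ℓ : ℕ} [Fact ℓ.Prime] (R : PolRep.{u, v} k (2 * j) ℓ) (h : BalRep R)
    (g : Gal k) : BalAt R g := by
  intro W hW hI
  obtain ⟨N, hN, hb⟩ := h
  exact ⟨2 * N, by omega, hb W hW hI g⟩

/-- The isotropic stable subspaces `W` at a place which passes the Newton test and at which the determinant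
of `W(j)` is a root of unity. -/
theorem pairs_of_one {j : ℕ} (S : CompSys.{u, v} k (2 * j)) :
    ∃ M : ℕ, 0 < M ∧ ∀ (ℓ : ℕ) [Fact ℓ.Prime], ∀ x ∈ S.Pl, ℓ ≠ x.p →
      NewtonTest (S.P x) ((x.q : ℚ) ^ (2 * j)) x.p →
      ∀ (W : Submodule ℚ_[ℓ] (S.rep ℓ).V) (hW : IsStable (S.rep ℓ).ρ W), Isotropic (S.rep ℓ).ψ W →
        DetRoot (S.rep ℓ) W hW x.frob →
          TatePairs (S.P x) ((x.q : ℚ) ^ (2 * j)) M (finrank ℚ_[ℓ] W) := by
  obtain ⟨M, hM, hroot⟩ := frob_eigenvalue' S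
  refine ⟨M, hM, ?_⟩
  intro ℓ _ x hx hℓ hN W hW hiso hbal
  have hqcyc := x.cyc_frob ℓ hℓ
  have hq0 : (x.q : ℚ_[ℓ]) ≠ 0 := right_ne_zero_of_mul_eq_one hqcyc
  have hqc : ((x.q : ℚ_[ℓ]) ^ (2 * j)) ≠ 0 := pow_ne_zero _ hq0
  have hchar : ((S.rep ℓ).ρ x.frob).charpoly = (S.P x).map (algebraMap ℚ ℚ_[ℓ]) :=
    S.charpoly_frob x hx ℓ hℓ
  have hφc : ∀ a b, (S.rep ℓ).ψ ((S.rep ℓ).ρ x.frob a) ((S.rep ℓ).ρ x.frob b) =
      (x.q : ℚ_[ℓ]) ^ (2 * j) * (S.rep ℓ).ψ a b := by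
    intro a b
    rw [← (S.rep ℓ).equivariant x.frob a b, ← mul_assoc, ← mul_pow, mul_comm (x.q : ℚ_[ℓ]),
      x.cyc_frob ℓ hℓ, one_pow, one_mul]
  have hW' : ∀ σ, ∀ y ∈ W, (S.rep ℓ).ρ σ y ∈ W := hW
  have hrel := relation_restrict (AlgebraicClosure ℚ_[ℓ]) (S.rep ℓ).ψ
    (S.rep ℓ).nondeg ((S.rep ℓ).ρ x.frob) _ hqc hφc W (hW' x.frob) hiso
  have e1 : ((S.P x).map (algebraMap ℚ ℚ_[ℓ])).aroots (AlgebraicClosure ℚ_[ℓ]) =
      (S.P x).aroots (AlgebraicClosure ℚ_[ℓ]) := by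
    rw [Polynomial.aroots, Polynomial.aroots, Polynomial.map_map,
      ← IsScalarTower.algebraMap_eq]
  rw [hchar, e1] at hrel
  have hc : algebraMap ℚ_[ℓ] (AlgebraicClosure ℚ_[ℓ]) ((x.q : ℚ_[ℓ]) ^ (2 * j)) =
      algebraMap ℚ (AlgebraicClosure ℚ_[ℓ]) ((x.q : ℚ) ^ (2 * j)) := by
    simp only [map_pow, map_natCast]
  rw [hc] at hrel
  obtain ⟨N, hN0, hdet⟩ := hbal
  have hdet' : (LinearMap.det (((S.rep ℓ).ρ x.frob).restrict (hW' x.frob)) *
      cyc k ℓ x.frob ^ (j * finrank ℚ_[ℓ] W)) ^ (2 * N) = 1 := by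
    rw [cycPow, ← pow_mul, detOn, detEnd, subOp] at hdet
    rw [mul_comm 2 N, pow_mul]
    exact (congrArg (fun t => t ^ 2) hdet).trans (one_pow 2)
  have h2 : algebraMap ℚ_[ℓ] (AlgebraicClosure ℚ_[ℓ]) (cyc k ℓ x.frob) *
      (x.q : AlgebraicClosure ℚ_[ℓ]) = 1 := by
    have h3 := congrArg (algebraMap ℚ_[ℓ] (AlgebraicClosure ℚ_[ℓ])) hqcyc
    rwa [map_mul, map_natCast, map_one] at h3
  obtain ⟨R', hR1, hR2, hR3⟩ := pairs_transfer (S.P x) ((x.q : ℚ) ^ (2 * j))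
    (AlgebraicClosure ℚ_[ℓ]) _ hrel M (fun β hβ => by
      have h1 := hroot ℓ N hN0 x hx hℓ hN W hW' hiso hdet' β (Polynomial.mem_aroots.1 hβ).2
      have h4 : (x.q : AlgebraicClosure ℚ_[ℓ]) ^ (2 * j * M) *
          (algebraMap ℚ_[ℓ] (AlgebraicClosure ℚ_[ℓ]) (cyc k ℓ x.frob) ^ j * β) ^ (2 * M) =
          β ^ (2 * M) := by
        rw [mul_pow, ← mul_assoc, ← pow_mul, show j * (2 * M) = 2 * j * M by ring, ← mul_pow,
          mul_comm (x.q : AlgebraicClosure ℚ_[ℓ]), h2, one_pow, one_mul]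
      rw [← h4, h1, mul_one, map_pow, map_natCast, ← pow_mul])
  refine ⟨R', ?_, hR2, hR3⟩
  rw [hR1]
  exact card_aroots (AlgebraicClosure ℚ_[ℓ]) (((S.rep ℓ).ρ x.frob).restrict (hW' x.frob))

/-- One place which passes the Newton test, at which `V_ℓ` is balanced and which has no pair of roots of Tate
type suffices for the semisimplicity of `V_ℓ`. -/
theorem semisimple_at {j : ℕ} (S : CompSys.{u, v} k (2 * j)) (ℓ : ℕ) [Fact ℓ.Prime] (x : Place k)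
    (hx : x ∈ S.Pl) (hℓ : ℓ ≠ x.p) (hN : NewtonTest (S.P x) ((x.q : ℚ) ^ (2 * j)) x.p)
    (hbal : BalAt (S.rep ℓ) x.frob) (hT : NoTatePair (S.P x) ((x.q : ℚ) ^ (2 * j))) :
    (S.rep ℓ).Semisimple := by
  obtain ⟨M, hM, hpairs⟩ := pairs_of_one S
  intro W hW
  have hperp := perp_stable (S.rep ℓ) W hW
  refine ⟨perp (S.rep ℓ).ψ W, hperp, isCompl_perp _ _ ?_⟩
  have hI : ∀ σ, ∀ y ∈ W ⊓ perp (S.rep ℓ).ψ W, (S.rep ℓ).ρ σ y ∈ W ⊓ perp (S.rep ℓ).ψ W :=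
    fun σ y hy => ⟨hW σ y hy.1, hperp σ y hy.2⟩
  have hiso : ∀ a ∈ W ⊓ perp (S.rep ℓ).ψ W, ∀ b ∈ W ⊓ perp (S.rep ℓ).ψ W, (S.rep ℓ).ψ a b = 0 :=
    fun a ha b hb => hb.2 a ha.1
  have hbot : W ⊓ perp (S.rep ℓ).ψ W = ⊥ := by
    by_contra hne
    obtain ⟨R, hR0, hR1, hR2⟩ := hpairs ℓ x hx hℓ hN _ hI hiso (hbal _ hI hiso)
    have hpos : 0 < finrank ℚ_[ℓ] ↥(W ⊓ perp (S.rep ℓ).ψ W) :=
      Nat.pos_of_ne_zero fun h0 => hne (Submodule.finrank_eq_zero.mp h0)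
    obtain ⟨a, ha⟩ := Multiset.card_pos_iff_exists_mem.1 (hR0.symm ▸ hpos)
    refine hT a ?_ M hM (hR2 a ha)
    refine le_trans ?_ hR1
    rw [Multiset.insert_eq_cons, ← Multiset.singleton_add]
    refine add_le_add (Multiset.singleton_le.2 ha) (Multiset.singleton_le.2 ?_)
    exact Multiset.mem_map.2 ⟨a, ha, rfl⟩
  intro y hy hy'
  have hyI : y ∈ W ⊓ perp (S.rep ℓ).ψ W := ⟨hy, hy'⟩
  rw [hbot] at hyI
  exact (Submodule.mem_bot _).mp hyI

end Pool.Agent.B4801bH65
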